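import Pool.Graph.R_pool_sql_team_seeded_3997aac3.Q99.RD.UWC
import Pool.Graph.R_pool_sql_team_seeded_3997aac3.Q100.OpenLem

/-!
# Reflexivity and weak compactness by ultrafilters
-/

set_option autoImplicit false
open Filter Topology

namespace Pool.Agent.H272.WC

open Q99.RD

variable {X Y : Type} [NormedAddCommGroup X] [NormedSpace ℂ X]
  [NormedAddCommGroup Y] [NormedSpace ℂ Y]

/-- Goldstine's theorem on finitely many functionals -/
theorem goldstine_fin (F : StrongDual ℂ (StrongDual ℂ X)) (I : Finset (StrongDual ℂ X)) {ε : ℝ}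
    (hε : 0 < ε) : ∃ x : X, ‖x‖ ≤ ‖F‖ ∧ ∀ φ ∈ I, ‖φ x - F φ‖ < ε := by
  classical
  let T : X →L[ℂ] (I → ℂ) := ContinuousLinearMap.pi fun i => (i : StrongDual ℂ X)
  have h := Q100.OpenLem.mem_closure_image (𝕜 := ℂ) T (fun i => F i) ‖F‖ (norm_nonneg F) ?_
  · rw [Metric.mem_closure_iff] at h
    obtain ⟨_, ⟨x, hx, rfl⟩, h2⟩ := h ε hε
    refine ⟨x, by simpa using hx, fun φ hφ => ?_⟩
    rw [dist_eq_norm, norm_sub_rev] at h2
    exact lt_of_le_of_lt (norm_le_pi_norm (T x - fun i : I => F i) ⟨φ, hφ⟩) h2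
  · intro ψ
    -- the functional on the finite product
    have e1 : ∀ y : I → ℂ, ψ y = ∑ i, y i * ψ (Pi.single i 1) := by
      intro y
      conv_lhs => rw [← Finset.univ_sum_single y]
      rw [map_sum]
      refine Finset.sum_congr rfl fun i _ => ?_
      have : (Pi.single i (y i) : I → ℂ) = y i • Pi.single i 1 := by
        rw [← Pi.single_smul, smul_eq_mul, mul_one]
      rw [this, map_smul, smul_eq_mul]
    have e2 : ψ.comp T = ∑ i : I, ψ (Pi.single i 1) • (i : StrongDual ℂ X) := by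
      ext x
      show ψ (T x) = _
      rw [e1, sum_apply]
      refine Finset.sum_congr rfl fun i _ => ?_
      show (i : StrongDual ℂ X) x * _ = ψ (Pi.single i 1) * (i : StrongDual ℂ X) x
      ring
    have e3 : ψ (fun i => F i) = F (ψ.comp T) := by
      rw [e1, e2, map_sum]
      refine Finset.sum_congr rfl fun i _ => ?_
      rw [map_smul, smul_eq_mul]
      ring
    rw [e3]
    exact F.le_opNorm _

/-- Goldstine's theorem with ultrafilters -/
theorem goldstine_ultra (F : StrongDual ℂ (StrongDual ℂ X)) :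
    ∃ 𝓤 : Ultrafilter X, Metric.closedBall (0 : X) ‖F‖ ∈ 𝓤 ∧
      ∀ φ : StrongDual ℂ X, Tendsto (fun x => φ x) 𝓤 (𝓝 (F φ)) := by
  let T : X → (StrongDual ℂ X → ℂ) := fun x φ => φ x
  have hcl : (fun φ => F φ) ∈ closure (T '' Metric.closedBall 0 ‖F‖) := by
    rw [mem_closure_iff]
    intro o ho hao
    rw [isOpen_pi_iff] at ho
    obtain ⟨I, u, hu, hIu⟩ := ho _ hao
    have hδ : ∀ φ : StrongDual ℂ X, ∃ δ : ℝ, 0 < δ ∧ (φ ∈ I → Metric.ball (F φ) δ ⊆ u φ) := by
      intro φ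
      by_cases h : φ ∈ I
      · obtain ⟨δ, h1, h2⟩ := Metric.isOpen_iff.1 (hu φ h).1 _ (hu φ h).2
        exact ⟨δ, h1, fun _ => h2⟩
      · exact ⟨1, one_pos, fun h' => absurd h' h⟩
    choose δ hδ0 hδ1 using hδ
    obtain ⟨ε, hε0, hε⟩ : ∃ ε : ℝ, 0 < ε ∧ ∀ φ ∈ I, ε ≤ δ φ := by
      classical
      clear hIu hu hδ1
      induction I using Finset.induction_on with
      | empty => exact ⟨1, one_pos, by simp⟩
      | insert φ I hφ ih =>
        obtain ⟨ε, h1, h2⟩ := ih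
        refine ⟨min ε (δ φ), lt_min h1 (hδ0 φ), ?_⟩
        intro ψ hψ
        rcases Finset.mem_insert.1 hψ with rfl | h
        · exact min_le_right _ _
        · exact le_trans (min_le_left _ _) (h2 ψ h)
    obtain ⟨x, hx1, hx2⟩ := goldstine_fin F I hε0
    refine ⟨T x, ?_, ⟨x, by simpa using hx1, rfl⟩⟩
    apply hIu
    intro φ hφ
    apply hδ1 φ hφ
    rw [Metric.mem_ball, dist_eq_norm]
    exact lt_of_lt_of_le (hx2 φ hφ) (hε φ hφ)
  obtain ⟨u, hu1, hu2⟩ := mem_closure_iff_ultrafilter.1 hcl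
  refine ⟨Ultrafilter.ofComapInfPrincipal hu1, Ultrafilter.ofComapInfPrincipal_mem hu1, ?_⟩
  have h := Ultrafilter.ofComapInfPrincipal_eq_of_map hu1
  have ht : Tendsto T (Ultrafilter.ofComapInfPrincipal hu1 : Filter X) (𝓝 fun φ => F φ) := by
    have h' : Filter.map T (Ultrafilter.ofComapInfPrincipal hu1 : Filter X) = u :=
      congrArg (fun v : Ultrafilter (StrongDual ℂ X → ℂ) => (v : Filter (StrongDual ℂ X → ℂ))) h
    rw [Tendsto, h']
    exact hu2
  rw [tendsto_pi_nhds] at ht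
  exact ht

/-- reflexivity in terms of ultrafilters -/
def Rx (X : Type) [NormedAddCommGroup X] [NormedSpace ℂ X] : Prop :=
  UWC (ContinuousLinearMap.id ℂ X)

theorem Rx.surjective (h : Rx X) : Function.Surjective (NormedSpace.inclusionInDoubleDual ℂ X) := by
  intro F
  obtain ⟨𝓤, h1, h2⟩ := goldstine_ultra F
  obtain ⟨y, hy⟩ := h _ 𝓤 h1
  refine ⟨y, ?_⟩
  ext φ
  rw [NormedSpace.dual_def]
  exact tendsto_nhds_unique (hy φ) (h2 φ)

theorem uwc_of_bidual (T : X →L[ℂ] Y)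
    (h : ∀ F : StrongDual ℂ (StrongDual ℂ X), ∃ y : Y, ∀ φ : StrongDual ℂ Y, F (φ.comp T) = φ y) :
    UWC T := by
  intro R 𝓤 hR
  obtain ⟨z, hz⟩ := exists_limit (ContinuousLinearMap.id ℂ X) R 𝓤 hR
  obtain ⟨y, hy⟩ := h z
  refine ⟨y, fun φ => ?_⟩
  rw [← hy]
  exact hz (φ.comp T)

theorem rx_of_surjective (h : Function.Surjective (NormedSpace.inclusionInDoubleDual ℂ X)) : Rx X := by
  apply uwc_of_bidual
  intro F
  obtain ⟨y, rfl⟩ := h F
  exact ⟨y, fun φ => rfl⟩

/-- closed subspaces -/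
theorem Rx.sub (h : Rx X) (M : Submodule ℂ X) (hM : IsClosed (M : Set X)) : Rx M := by
  intro R 𝓤 hR
  obtain ⟨y, hy⟩ := h R (𝓤.map (fun x : M => (x : X))) (by
    rw [Ultrafilter.mem_map]
    refine Filter.mem_of_superset hR fun x hx => ?_
    rw [mem_closedBall_zero_iff] at hx
    show (x : X) ∈ Metric.closedBall (0 : X) R
    rw [mem_closedBall_zero_iff]
    exact hx)
  have hyM : y ∈ M := by
    by_contra hc
    have := hM
    have h1 : M.mkQL y ≠ 0 := by
      intro h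
      exact hc ((Submodule.Quotient.mk_eq_zero M).1 h)
    obtain ⟨g, -, hg⟩ := exists_dual_vector ℂ (M.mkQL y) (norm_ne_zero_iff.2 h1)
    have h2 : Tendsto (fun x : M => g (M.mkQL (x : X))) 𝓤 (𝓝 (g (M.mkQL y))) := hy (g.comp M.mkQL)
    have h3 : Tendsto (fun x : M => g (M.mkQL (x : X))) 𝓤 (𝓝 0) := by
      refine tendsto_const_nhds.congr fun x => ?_
      have : M.mkQL (x : X) = 0 := (Submodule.Quotient.mk_eq_zero M).2 x.2
      rw [this, map_zero]
    have h4 := tendsto_nhds_unique h2 h3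
    rw [hg] at h4
    exact h1 (by simpa using h4)
  refine ⟨⟨y, hyM⟩, fun g => ?_⟩
  obtain ⟨G, hG, _⟩ := exists_extension_norm_eq M g
  have h1 : Tendsto (fun x : M => G (x : X)) 𝓤 (𝓝 (G y)) := hy G
  have h2 : G y = g ⟨y, hyM⟩ := hG ⟨y, hyM⟩
  rw [← h2]
  exact h1.congr fun x => hG x

end Pool.Agent.H272.WC
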