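import Pool.Agent.H272.WC.Main

/-!
# Algebraic operators modulo the weakly compact operators; quasi-reflexive spaces
-/

set_option autoImplicit false
open Filter Topology

namespace Pool.Agent.H272.WC

open Q99.RD Pool.Agent.H272.IS

section basic

variable {X : Type} [NormedAddCommGroup X] [NormedSpace ℂ X]

theorem inj_dense {T K : X →L[ℂ] X} (h : NoInv T) (hK : K ∈ polys T) (hne : K ≠ 0) :
    Function.Injective K ∧ DenseRange K := by
  have hTK : ∀ x, T (K x) = K (T x) := fun x => congrArg (fun D : X →L[ℂ] X => D x) (polys_comm hK)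
  constructor
  · rcases h (LinearMap.ker (K : X →ₗ[ℂ] X)) K.isClosed_ker (by
      intro x hx
      have hx' : K x = 0 := hx
      show K (T x) = 0
      rw [← hTK, hx', map_zero]) with h1 | h1
    · exact LinearMap.ker_eq_bot.1 h1
    · exfalso
      apply hne
      ext x
      have : x ∈ LinearMap.ker (K : X →ₗ[ℂ] X) := by rw [h1]; trivial
      simpa using this
  · have hU : ((LinearMap.range (K : X →ₗ[ℂ] X)).topologicalClosure : Set X) =
        closure (Set.range K) := by
      rw [Submodule.topologicalClosure_coe]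
      rfl
    rcases h (LinearMap.range (K : X →ₗ[ℂ] X)).topologicalClosure
      (Submodule.isClosed_topologicalClosure _) (by
        intro x hx
        have hx' : x ∈ closure (Set.range K) := by rw [← hU]; exact hx
        have h5 : Set.MapsTo T (Set.range K) (Set.range K) := by
          rintro _ ⟨y, rfl⟩
          exact ⟨T y, (hTK y).symm⟩
        have h6 := h5.closure T.continuous hx'
        rw [← hU] at h6
        exact h6) with h1 | h1
    · exfalso
      apply hne
      ext x
      have : K x ∈ (LinearMap.range (K : X →ₗ[ℂ] X)).topologicalClosure :=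
        Submodule.le_topologicalClosure _ ⟨x, rfl⟩
      rw [h1, Submodule.mem_bot] at this
      simpa using this
    · intro y
      rw [← hU, h1]
      trivial

theorem mem_polys_aeval (T : X →L[ℂ] X) (p : Polynomial ℂ) : Polynomial.aeval T p ∈ polys T :=
  subset_closure ⟨p, rfl⟩

/-- without invariant subspaces all polynomials are injective -/
theorem aeval_injective {T : X →L[ℂ] X} (h : NoInv T) (hX : ¬ FiniteDimensional ℂ X) :
    ∀ (n : ℕ) (p : Polynomial ℂ), p.natDegree = n → p ≠ 0 →
      Function.Injective (Polynomial.aeval T p) := by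
  intro n
  induction n with
  | zero =>
    intro p hp hne
    obtain ⟨a, rfl⟩ : ∃ a, Polynomial.C a = p := ⟨_, (Polynomial.eq_C_of_natDegree_eq_zero hp).symm⟩
    have ha : a ≠ 0 := by
      rintro rfl
      exact hne (by simp)
    intro x y hxy
    rw [Polynomial.aeval_C, Algebra.algebraMap_eq_smul_one] at hxy
    exact smul_right_injective X ha hxy
  | succ n ih =>
    intro p hp hne
    have hdeg : p.degree ≠ 0 := by
      intro h0
      have := Polynomial.natDegree_eq_zero_iff_degree_le_zero.2 h0.le
      omega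
    obtain ⟨c, hc⟩ := IsAlgClosed.exists_root p hdeg
    obtain ⟨q, rfl⟩ := Polynomial.dvd_iff_isRoot.2 hc
    have hq : q ≠ 0 := by
      rintro rfl
      exact hne (mul_zero _)
    have hdq : q.natDegree = n := by
      rw [Polynomial.natDegree_mul (Polynomial.X_sub_C_ne_zero c) hq, Polynomial.natDegree_X_sub_C] at hp
      omega
    have h1 : Polynomial.aeval T ((Polynomial.X - Polynomial.C c) * q) =
        (T - c • (1 : X →L[ℂ] X)) * Polynomial.aeval T q := by
      rw [map_mul, map_sub, Polynomial.aeval_X, Polynomial.aeval_C, Algebra.algebraMap_eq_smul_one]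
    rw [h1]
    exact ((h.sub_smul_one c).injective hX).comp (ih q hdq hq)

theorem aeval_ne_zero {T : X →L[ℂ] X} (h : NoInv T) (hX : ¬ FiniteDimensional ℂ X)
    {p : Polynomial ℂ} (hp : p ≠ 0) : Polynomial.aeval T p ≠ 0 := by
  intro h0
  have h1 := aeval_injective h hX _ p rfl hp
  rw [h0] at h1
  apply hX
  have : Subsingleton X := ⟨fun x y => h1 rfl⟩
  infer_instance

/-- an operator without invariant subspaces lives on a separable space -/
theorem separable_of_noInv {T : X →L[ℂ] X} (h : NoInv T) : TopologicalSpace.SeparableSpace X := by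
  by_cases hs : Subsingleton X
  · infer_instance
  rw [not_subsingleton_iff_nontrivial] at hs
  obtain ⟨x, hx⟩ := exists_ne (0 : X)
  let s : Set X := Set.range fun n : ℕ => (T ^ n) x
  let M : Submodule ℂ X := (Submodule.span ℂ s).topologicalClosure
  have hM : (M : Set X) = closure (Submodule.span ℂ s : Set X) := Submodule.topologicalClosure_coe _
  have hspan : ∀ y ∈ Submodule.span ℂ s, T y ∈ Submodule.span ℂ s := by
    intro y hy
    have h1 : Submodule.span ℂ s ≤ (Submodule.span ℂ s).comap (T : X →ₗ[ℂ] X) := by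
      rw [Submodule.span_le]
      rintro _ ⟨n, rfl⟩
      show T ((T ^ n) x) ∈ Submodule.span ℂ s
      refine Submodule.subset_span ⟨n + 1, ?_⟩
      show (T ^ (n + 1)) x = T ((T ^ n) x)
      rw [pow_succ']
      rfl
    exact h1 hy
  rcases h M (Submodule.isClosed_topologicalClosure _) (by
    intro y hy
    have hy' : y ∈ closure (Submodule.span ℂ s : Set X) := by rw [← hM]; exact hy
    have h5 : Set.MapsTo T (Submodule.span ℂ s : Set X) (Submodule.span ℂ s : Set X) := hspan
    have h6 := h5.closure T.continuous hy'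
    rw [← hM] at h6
    exact h6) with h1 | h1
  · exfalso
    apply hx
    have h2 : x ∈ M := Submodule.le_topologicalClosure _ (Submodule.subset_span ⟨0, rfl⟩)
    rwa [h1, Submodule.mem_bot] at h2
  · have h2 : TopologicalSpace.IsSeparable (M : Set X) := by
      rw [hM]
      exact ((Set.countable_range _).isSeparable.span (R := ℂ)).closure
    rw [h1, Submodule.top_coe] at h2
    exact TopologicalSpace.isSeparable_univ_iff.1 h2

end basic

section bidual

variable {X : Type} [NormedAddCommGroup X] [NormedSpace ℂ X]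

/-- the second adjoint, as a linear map -/
noncomputable def bi (T : X →L[ℂ] X) :
    StrongDual ℂ (StrongDual ℂ X) →ₗ[ℂ] StrongDual ℂ (StrongDual ℂ X) where
  toFun F := F.comp (ContinuousLinearMap.precomp ℂ T)
  map_add' _ _ := rfl
  map_smul' _ _ := rfl

theorem bi_apply (T : X →L[ℂ] X) (F : StrongDual ℂ (StrongDual ℂ X)) (φ : StrongDual ℂ X) :
    bi T F φ = F (φ.comp T) := rfl

theorem bi_aeval (T : X →L[ℂ] X) (p : Polynomial ℂ) (F : StrongDual ℂ (StrongDual ℂ X))
    (φ : StrongDual ℂ X) : Polynomial.aeval (bi T) p F φ = F (φ.comp (Polynomial.aeval T p)) := by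
  induction p using Polynomial.induction_on' with
  | add p q hp hq =>
    rw [map_add, map_add]
    show Polynomial.aeval (bi T) p F φ + Polynomial.aeval (bi T) q F φ = _
    rw [hp, hq, ← map_add]
    congr 1
    ext x
    exact (map_add φ _ _).symm
  | monomial n a =>
    rw [Polynomial.aeval_monomial, Polynomial.aeval_monomial, Algebra.algebraMap_eq_smul_one,
      Algebra.algebraMap_eq_smul_one, smul_one_mul, smul_one_mul]
    have h1 : ∀ (n : ℕ) (φ : StrongDual ℂ X), ((bi T ^ n) F) φ = F (φ.comp (T ^ n)) := by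
      intro n
      induction n with
      | zero => intro φ; rfl
      | succ n ih =>
        intro φ
        rw [pow_succ']
        show bi T ((bi T ^ n) F) φ = _
        rw [bi_apply, ih, pow_succ']
        rfl
    show a • ((bi T ^ n) F) φ = _
    rw [h1, ← map_smul]
    congr 1
    ext x
    exact (map_smul φ a _).symm

theorem intertwine_linear {V W : Type} [AddCommGroup V] [Module ℂ V] [AddCommGroup W] [Module ℂ W]
    {B : V →ₗ[ℂ] V} {Q : W →ₗ[ℂ] W} {π : V →ₗ[ℂ] W} (h : ∀ v, π (B v) = Q (π v))
    (p : Polynomial ℂ) (v : V) : π (Polynomial.aeval B p v) = Polynomial.aeval Q p (π v) := by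
  induction p using Polynomial.induction_on' with
  | add p q hp hq =>
    rw [map_add, map_add, LinearMap.add_apply, LinearMap.add_apply, map_add, hp, hq]
  | monomial n a =>
    rw [Polynomial.aeval_monomial, Polynomial.aeval_monomial, Algebra.algebraMap_eq_smul_one,
      Algebra.algebraMap_eq_smul_one, smul_one_mul, smul_one_mul]
    have h1 : ∀ n : ℕ, π ((B ^ n) v) = (Q ^ n) (π v) := by
      intro n
      induction n with
      | zero => rfl
      | succ n ih =>
        rw [pow_succ', pow_succ']
        show π (B ((B ^ n) v)) = Q ((Q ^ n) (π v))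
        rw [h, ih]
    show π (a • (B ^ n) v) = a • (Q ^ n) (π v)
    rw [map_smul, h1]

/-- operators which are algebraic modulo an invariant subspace of finite codimension -/
theorem exists_poly_aux {V Z : Type} [AddCommGroup V] [Module ℂ V] [AddCommGroup Z] [Module ℂ Z]
    (B : V →ₗ[ℂ] V) (T : Z →ₗ[ℂ] Z) (ι : Z →ₗ[ℂ] V) (hB : ∀ z, B (ι z) = ι (T z)) (n : ℕ) (ψ : Fin n → V)
    (h : ∀ v, ∃ (z : Z) (c : Fin n → ℂ), v = ι z + ∑ i, c i • ψ i) :
    ∃ p : Polynomial ℂ, p ≠ 0 ∧ ∀ v, ∃ z, Polynomial.aeval B p v = ι z := by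
  let W : Submodule ℂ V := LinearMap.range ι
  have hW : W ≤ W.comap B := by
    rintro _ ⟨z, rfl⟩
    exact ⟨T z, (hB z).symm⟩
  have hfin : FiniteDimensional ℂ (V ⧸ W) := by
    have hspan : Submodule.span ℂ (Set.range fun i => W.mkQ (ψ i)) = ⊤ := by
      rw [eq_top_iff]
      rintro w -
      obtain ⟨v, rfl⟩ := W.mkQ_surjective w
      obtain ⟨y, c, hz⟩ := h v
      rw [hz, map_add, map_sum]
      refine Submodule.add_mem _ ?_ ?_
      · have : W.mkQ (ι y) = 0 := by
          rw [Submodule.mkQ_apply, Submodule.Quotient.mk_eq_zero]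
          exact ⟨y, rfl⟩
        rw [this]
        exact Submodule.zero_mem _
      · refine Submodule.sum_mem _ fun i _ => ?_
        rw [map_smul]
        exact Submodule.smul_mem _ _ (Submodule.subset_span ⟨i, rfl⟩)
    exact Module.finite_def.2 ⟨(Set.finite_range fun i => W.mkQ (ψ i)).toFinset, by
      rw [Set.Finite.coe_toFinset]; exact hspan⟩
  let Q : (V ⧸ W) →ₗ[ℂ] (V ⧸ W) := W.mapQ W B hW
  refine ⟨Q.charpoly, Q.charpoly_monic.ne_zero, fun v => ?_⟩
  have h1 : W.mkQ (Polynomial.aeval B Q.charpoly v) = 0 := by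
    rw [intertwine_linear (Q := Q) (π := W.mkQ) (fun v => rfl), LinearMap.aeval_self_charpoly]
    rfl
  obtain ⟨z, hz⟩ := (Submodule.Quotient.mk_eq_zero W).1 h1
  exact ⟨z, hz.symm⟩

/-- on quasi-reflexive spaces every operator has a weakly compact polynomial -/
theorem exists_poly (T : X →L[ℂ] X) (n : ℕ) (ψ : Fin n → StrongDual ℂ (StrongDual ℂ X))
    (h : ∀ F, ∃ (x : X) (c : Fin n → ℂ), F = NormedSpace.inclusionInDoubleDual ℂ X x + ∑ i, c i • ψ i) :
    ∃ p : Polynomial ℂ, p ≠ 0 ∧ UWC (Polynomial.aeval T p) := by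
  obtain ⟨p, hp, h1⟩ := exists_poly_aux (bi T) (T : X →ₗ[ℂ] X)
    (NormedSpace.inclusionInDoubleDual ℂ X : X →ₗ[ℂ] StrongDual ℂ (StrongDual ℂ X))
    (fun x => rfl) n ψ h
  refine ⟨p, hp, ?_⟩
  apply uwc_of_bidual
  intro F
  obtain ⟨y, hy⟩ := h1 F
  refine ⟨y, fun φ => ?_⟩
  rw [← bi_aeval, hy]
  rfl

end bidual

end Pool.Agent.H272.WC
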