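import Pool.Agent.H272.WC.Sum

/-!
# The diagonal of the `l_2`-sum of a sequence of renormings
-/

set_option autoImplicit false
open Filter Topology
open scoped ENNReal NNReal

namespace Pool.Agent.H272.WC

open Q99.RD

attribute [local instance] fact12

variable {X : Type} [NormedAddCommGroup X] [NormedSpace ℂ X]
  {E : ℕ → Type} [∀ n, NormedAddCommGroup (E n)] [∀ n, NormedSpace ℂ (E n)]

/-- the coordinates are continuous -/
noncomputable def ev (n : ℕ) : lp E 2 →L[ℂ] E n :=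
  LinearMap.mkContinuous
    { toFun := fun z => z n
      map_add' := fun _ _ => rfl
      map_smul' := fun _ _ => rfl } 1 (fun z => by
      rw [one_mul]
      exact lp.norm_apply_le_norm (by norm_num) z n)

theorem ev_apply (n : ℕ) (z : lp E 2) : ev n z = z n := rfl

/-- the diagonal of the `l_2`-sum -/
def diag (e : ∀ n, E n ≃L[ℂ] X) : Submodule ℂ (lp E 2) where
  carrier := {z | ∀ n, e n (z n) = e 0 (z 0)}
  add_mem' := by
    intro z w hz hw n
    show e n (z n + w n) = e 0 (z 0 + w 0)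
    rw [map_add, map_add, hz n, hw n]
  zero_mem' := by
    intro n
    show e n 0 = e 0 0
    rw [map_zero, map_zero]
  smul_mem' := by
    intro c z hz n
    show e n (c • z n) = e 0 (c • z 0)
    rw [map_smul, map_smul, hz n]

variable (e : ∀ n, E n ≃L[ℂ] X)

theorem mem_diag (z : lp E 2) : z ∈ diag e ↔ ∀ n, e n (z n) = e 0 (z 0) := Iff.rfl

theorem diag_closed : IsClosed (diag e : Set (lp E 2)) := by
  have h1 : (diag e : Set (lp E 2)) = ⋂ n, {z | e n (ev n z) = e 0 (ev 0 z)} := by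
    ext z
    simp only [Set.mem_iInter, Set.mem_ofPred_eq]
    exact Iff.rfl
  rw [h1]
  refine isClosed_iInter fun n => isClosed_eq ?_ ?_
  · exact (e n).continuous.comp (ev n).continuous
  · exact (e 0).continuous.comp (ev 0).continuous

/-- the common value -/
noncomputable def jm : diag e →L[ℂ] X :=
  (e 0 : E 0 →L[ℂ] X).comp ((ev 0).comp (diag e).subtypeL)

theorem jm_eq (r : diag e) (n : ℕ) : e n (r.1 n) = jm e r := r.2 n

theorem symm_jm (r : diag e) (n : ℕ) : (e n).symm (jm e r) = r.1 n := by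
  rw [← jm_eq e r n, (e n).symm_apply_apply]

theorem jm_injective : Function.Injective (jm e) := by
  intro r s h
  apply Subtype.ext
  apply lp.ext
  funext n
  rw [← symm_jm e r n, ← symm_jm e s n, h]

theorem coord_le (r : diag e) (n : ℕ) : ‖r.1 n‖ ≤ ‖r‖ := lp.norm_apply_le_norm (by norm_num) r.1 n

/-- an element of the diagonal -/
theorem exists_diag (x : X) {C : ℝ} (hC : 0 ≤ C) (h : ∀ G : Finset ℕ, ∑ n ∈ G, ‖(e n).symm x‖ ^ 2 ≤ C ^ 2) :
    ∃ r : diag e, jm e r = x ∧ ‖r‖ ≤ C := by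
  have hm : Memℓp (fun n => (e n).symm x) 2 := by
    apply memℓp_gen' (C := C ^ 2)
    intro s
    simpa using h s
  let z : lp E 2 := ⟨fun n => (e n).symm x, hm⟩
  have hz : z ∈ diag e := by
    intro n
    show e n ((e n).symm x) = e 0 ((e 0).symm x)
    rw [(e n).apply_symm_apply, (e 0).apply_symm_apply]
  refine ⟨⟨z, hz⟩, (e 0).apply_symm_apply x, ?_⟩
  show ‖z‖ ≤ C
  apply lp.norm_le_of_forall_sum_le (p := 2) (by norm_num) hC
  intro s
  have := h s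
  simpa using this

theorem coord_sum_le (r : diag e) (G : Finset ℕ) : ∑ n ∈ G, ‖r.1 n‖ ^ 2 ≤ ‖r‖ ^ 2 := sum_sq_le r.1 G

/-- the limit of bounded real functions -/
theorem exists_lim {α : Type} (𝓤 : Ultrafilter α) (f : α → ℝ) (R : ℝ) (S : Set α) (hS : S ∈ 𝓤)
    (h : ∀ x ∈ S, 0 ≤ f x ∧ f x ≤ R) : ∃ a : ℝ, Tendsto f 𝓤 (𝓝 a) := by
  have hc : IsCompact (Set.Icc (0 : ℝ) R) := isCompact_Icc
  obtain ⟨a, _, ha⟩ := hc.ultrafilter_le_nhds (𝓤.map f) (by
    rw [le_principal_iff]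
    show _ ∈ 𝓤.map f
    rw [Ultrafilter.mem_map]
    exact Filter.mem_of_superset hS h)
  exact ⟨a, ha⟩

/-- **Reflexivity of the diagonal** -/
theorem rx_diag (hj : UWC (jm e)) : Rx (diag e) := by
  classical
  intro R 𝓤 hR
  have hR0 : 0 ≤ R := by
    obtain ⟨x, hx⟩ := 𝓤.nonempty_of_mem hR
    rw [mem_closedBall_zero_iff] at hx
    exact (norm_nonneg x).trans hx
  obtain ⟨x0, hx0⟩ := hj R 𝓤 hR
  have h2 : ∀ n, ∃ a : ℝ, Tendsto (fun r : diag e => ‖r.1 n‖) 𝓤 (𝓝 a) := by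
    intro n
    refine exists_lim 𝓤 _ R _ hR fun r hr => ⟨norm_nonneg _, ?_⟩
    rw [mem_closedBall_zero_iff] at hr
    exact (coord_le e r n).trans hr
  choose a ha using h2
  have hasq : ∀ G : Finset ℕ, ∑ n ∈ G, a n ^ 2 ≤ R ^ 2 := by
    intro G
    have h3 : Tendsto (fun r : diag e => ∑ n ∈ G, ‖r.1 n‖ ^ 2) 𝓤 (𝓝 (∑ n ∈ G, a n ^ 2)) :=
      tendsto_finsetSum _ fun n _ => (ha n).pow 2
    refine le_of_tendsto h3 ?_
    refine Filter.mem_of_superset hR fun r hr => ?_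
    rw [mem_closedBall_zero_iff] at hr
    exact (coord_sum_le e r G).trans (pow_le_pow_left₀ (norm_nonneg _) hr 2)
  have hlim : ∀ (n : ℕ) (f : StrongDual ℂ (E n)),
      Tendsto (fun r : diag e => f (r.1 n)) 𝓤 (𝓝 (f ((e n).symm x0))) := by
    intro n f
    refine (hx0 (f.comp ((e n).symm : X →L[ℂ] E n))).congr fun r => ?_
    show f ((e n).symm (jm e r)) = _
    rw [symm_jm]
  have ha2 : ∀ n, ‖(e n).symm x0‖ ≤ a n := by
    intro n
    have ha0 : 0 ≤ a n := ge_of_tendsto (ha n) (Filter.Eventually.of_forall fun r => norm_nonneg _)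
    apply NormedSpace.norm_le_dual_bound ℂ _ ha0
    intro f
    refine le_of_tendsto_of_tendsto (hlim n f).norm ((ha n).mul_const ‖f‖)
      (Filter.Eventually.of_forall fun r => ?_)
    have h5 : ‖f (r.1 n)‖ ≤ ‖f‖ * ‖r.1 n‖ := f.le_opNorm _
    exact h5.trans_eq (mul_comm _ _)
  obtain ⟨r0, hr0, hr0n⟩ := exists_diag e x0 hR0 (fun G =>
    (Finset.sum_le_sum fun n _ => pow_le_pow_left₀ (norm_nonneg _) (ha2 n) 2).trans (hasq G))
  refine ⟨r0, fun ψ => ?_⟩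
  obtain ⟨Ψ, hΨ, _⟩ := exists_extension_norm_eq (diag e) ψ
  show Tendsto (fun r => ψ r) 𝓤 (𝓝 (ψ r0))
  rw [Metric.tendsto_nhds]
  intro ε hε
  obtain ⟨F, hF⟩ := functional_tail Ψ (show 0 < ε / (4 * (R + 1)) by positivity)
  have h3 : Tendsto (fun r : diag e => ∑ n ∈ F, Ψ (sgl n (r.1 n))) 𝓤
      (𝓝 (∑ n ∈ F, Ψ (sgl n (r0.1 n)))) := by
    refine tendsto_finsetSum _ fun n _ => ?_
    have := hlim n (Ψ.comp (sgl n))
    rw [← hr0, symm_jm] at this
    exact this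
  have h4 := Metric.tendsto_nhds.1 h3 (ε / 4) (by positivity)
  filter_upwards [h4, hR] with r hr1 hr2
  rw [mem_closedBall_zero_iff] at hr2
  rw [dist_eq_norm] at hr1 ⊢
  have e1 : ψ r - ψ r0 = (Ψ r.1 - ∑ n ∈ F, Ψ (sgl n (r.1 n))) +
      (∑ n ∈ F, Ψ (sgl n (r.1 n)) - ∑ n ∈ F, Ψ (sgl n (r0.1 n))) -
      (Ψ r0.1 - ∑ n ∈ F, Ψ (sgl n (r0.1 n))) := by
    have e2 : ψ r = Ψ r.1 := (hΨ r).symm
    have e3 : ψ r0 = Ψ r0.1 := (hΨ r0).symm
    rw [e2, e3]
    ring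
  have e4 : ∀ s : diag e, ‖s‖ ≤ R → ‖Ψ s.1 - ∑ n ∈ F, Ψ (sgl n (s.1 n))‖ ≤ ε / 4 := by
    intro s hs
    refine (hF s.1).trans ?_
    have hs' : ‖s.1‖ ≤ R := hs
    rw [div_mul_eq_mul_div, div_le_div_iff₀ (by positivity) (by norm_num)]
    nlinarith
  rw [e1]
  have e5 := norm_sub_le ((Ψ r.1 - ∑ n ∈ F, Ψ (sgl n (r.1 n))) +
      (∑ n ∈ F, Ψ (sgl n (r.1 n)) - ∑ n ∈ F, Ψ (sgl n (r0.1 n)))) (Ψ r0.1 - ∑ n ∈ F, Ψ (sgl n (r0.1 n)))
  have e6 := norm_add_le (Ψ r.1 - ∑ n ∈ F, Ψ (sgl n (r.1 n)))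
      (∑ n ∈ F, Ψ (sgl n (r.1 n)) - ∑ n ∈ F, Ψ (sgl n (r0.1 n)))
  have e7 := e4 r hr2
  have e8 := e4 r0 hr0n
  linarith

/-- weak compactness of the embedding of the diagonal -/
theorem uwc_jm [CompleteSpace X] (K : ℕ → (X →L[ℂ] X)) (hK : ∀ n, UWC (K n)) (C η : ℕ → ℝ)
    (hC : ∀ n, 0 ≤ C n) (hη : Tendsto η atTop (𝓝 0)) (hη0 : ∀ n, 0 ≤ η n)
    (h : ∀ n x, ∃ u v : X, x = K n u + v ∧ ‖u‖ ≤ C n * ‖(e n).symm x‖ ∧ ‖v‖ ≤ η n * ‖(e n).symm x‖) :
    UWC (jm e) := by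
  intro R 𝓤 hR
  have hR0 : 0 ≤ R := by
    obtain ⟨x, hx⟩ := 𝓤.nonempty_of_mem hR
    rw [mem_closedBall_zero_iff] at hx
    exact (norm_nonneg x).trans hx
  obtain ⟨z, hz⟩ := exists_limit (jm e) R 𝓤 hR
  have hnear : ∀ ε : ℝ, 0 < ε → ∃ y : X, ∀ f : StrongDual ℂ X, ‖z f - f y‖ ≤ ε * ‖f‖ := by
    intro ε hε
    obtain ⟨n, hn⟩ : ∃ n, η n * R ≤ ε := by
      have h1 : Tendsto (fun n => η n * R) atTop (𝓝 (0 * R)) := hη.mul_const R
      rw [zero_mul] at h1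
      obtain ⟨n, hn⟩ := ((tendsto_order.1 h1).2 ε hε).exists
      exact ⟨n, hn.le⟩
    choose u v huv hu hv using h n
    obtain ⟨y, hy⟩ := hK n (C n * R) (𝓤.map (fun r : diag e => u (jm e r))) (by
      rw [Ultrafilter.mem_map]
      refine Filter.mem_of_superset hR fun r hr => ?_
      rw [mem_closedBall_zero_iff] at hr
      show u (jm e r) ∈ Metric.closedBall (0 : X) (C n * R)
      rw [mem_closedBall_zero_iff]
      refine (hu _).trans (mul_le_mul_of_nonneg_left ?_ (hC n))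
      rw [symm_jm]
      exact (coord_le e r n).trans hr)
    refine ⟨y, fun f => ?_⟩
    have h1 : Tendsto (fun r : diag e => f (K n (u (jm e r)))) 𝓤 (𝓝 (f y)) := hy f
    have h2 : Tendsto (fun r : diag e => f (v (jm e r))) 𝓤 (𝓝 (z f - f y)) := by
      refine ((hz f).sub h1).congr fun r => ?_
      rw [← map_sub]
      congr 1
      rw [sub_eq_iff_eq_add']
      exact huv (jm e r)
    refine le_of_tendsto h2.norm (Filter.mem_of_superset hR fun r hr => ?_)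
    rw [mem_closedBall_zero_iff] at hr
    show ‖f (v (jm e r))‖ ≤ ε * ‖f‖
    refine (f.le_opNorm _).trans ?_
    rw [mul_comm]
    refine mul_le_mul_of_nonneg_right ((hv _).trans (le_trans ?_ hn)) (norm_nonneg _)
    refine mul_le_mul_of_nonneg_left ?_ (hη0 n)
    rw [symm_jm]
    exact (coord_le e r n).trans hr
  obtain ⟨y, hy⟩ := exists_of_near z hnear
  exact ⟨y, fun f => by rw [← hy]; exact hz f⟩

/-- operators on the diagonal -/
theorem exists_op (S : X →L[ℂ] X) {c : ℝ} (hc : 0 ≤ c)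
    (h : ∀ n x, ‖(e n).symm (S x)‖ ≤ c * ‖(e n).symm x‖) :
    ∃ S' : diag e →L[ℂ] diag e, (∀ r, jm e (S' r) = S (jm e r)) ∧ ∀ r, ‖S' r‖ ≤ c * ‖r‖ := by
  have h1 : ∀ r : diag e, ∃ s : diag e, jm e s = S (jm e r) ∧ ‖s‖ ≤ c * ‖r‖ := by
    intro r
    refine exists_diag e (S (jm e r)) (by positivity) fun G => ?_
    have h2 : ∀ n, ‖(e n).symm (S (jm e r))‖ ^ 2 ≤ c ^ 2 * ‖r.1 n‖ ^ 2 := by
      intro n
      rw [← mul_pow]
      refine pow_le_pow_left₀ (norm_nonneg _) ((h n _).trans ?_) 2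
      rw [symm_jm]
    refine (Finset.sum_le_sum fun n _ => h2 n).trans ?_
    rw [← Finset.mul_sum, mul_pow]
    exact mul_le_mul_of_nonneg_left (coord_sum_le e r G) (sq_nonneg _)
  choose s hs1 hs2 using h1
  let L : diag e →ₗ[ℂ] diag e :=
    { toFun := s
      map_add' := fun r r' => by
        apply jm_injective e
        rw [hs1, map_add, map_add, map_add, hs1, hs1]
      map_smul' := fun a r => by
        apply jm_injective e
        rw [hs1, map_smul, map_smul, RingHom.id_apply, map_smul, hs1] }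
  exact ⟨L.mkContinuous c hs2, hs1, hs2⟩

/-- operators into the diagonal -/
theorem exists_into (K : X →L[ℂ] X) {C : ℝ} (hC : 0 ≤ C)
    (h : ∀ x, ∀ G : Finset ℕ, ∑ n ∈ G, ‖(e n).symm (K x)‖ ^ 2 ≤ (C * ‖x‖) ^ 2) :
    ∃ k : X →L[ℂ] diag e, ∀ x, jm e (k x) = K x := by
  have h1 : ∀ x, ∃ s : diag e, jm e s = K x ∧ ‖s‖ ≤ C * ‖x‖ :=
    fun x => exists_diag e (K x) (by positivity) (h x)
  choose s hs1 hs2 using h1
  let L : X →ₗ[ℂ] diag e :=
    { toFun := s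
      map_add' := fun r r' => by
        apply jm_injective e
        rw [hs1, map_add, map_add, hs1, hs1]
      map_smul' := fun a r => by
        apply jm_injective e
        rw [hs1, map_smul, RingHom.id_apply, map_smul, hs1] }
  exact ⟨L.mkContinuous C hs2, hs1⟩

end Pool.Agent.H272.WC
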