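import Pool.Agent.H272.WC.Diag

/-!
# The factorisation of Davis, Figiel, Johnson and Pełczyński, with commuting operators
-/

set_option autoImplicit false
open Filter Topology
open scoped ENNReal NNReal

namespace Pool.Agent.H272.WC

open Q99.RD

variable {X : Type} [NormedAddCommGroup X] [NormedSpace ℂ X]

/-- the map `(u, v) ↦ 2^n K u + 2^(-n) v` -/
noncomputable def Lm (K : X →L[ℂ] X) (n : ℕ) : (X × X) →L[ℂ] X :=
  ((2 : ℂ) ^ n) • K.comp (ContinuousLinearMap.fst ℂ X X) + ((2 : ℂ) ^ n)⁻¹ • ContinuousLinearMap.snd ℂ X X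

theorem Lm_apply (K : X →L[ℂ] X) (n : ℕ) (m : X × X) :
    Lm K n m = ((2 : ℂ) ^ n) • K m.1 + ((2 : ℂ) ^ n)⁻¹ • m.2 := rfl

instance isClosed_ker_Lm (K : X →L[ℂ] X) (n : ℕ) : IsClosed ((Lm K n).ker : Set (X × X)) :=
  ContinuousLinearMap.isClosed_ker _

/-- the space `X` with the `n`-th norm -/
abbrev XN (K : X →L[ℂ] X) (n : ℕ) : Type := (X × X) ⧸ (Lm K n).ker

theorem two_pow_ne (n : ℕ) : ((2 : ℂ) ^ n) ≠ 0 := pow_ne_zero _ two_ne_zero

theorem Lm_snd (K : X →L[ℂ] X) (n : ℕ) (x : X) : Lm K n (0, ((2 : ℂ) ^ n) • x) = x := by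
  rw [Lm_apply, map_zero, smul_zero, zero_add, smul_smul, inv_mul_cancel₀ (two_pow_ne n), one_smul]

/-- the canonical map -/
noncomputable def lift (K : X →L[ℂ] X) (n : ℕ) : XN K n →L[ℂ] X := (Lm K n).ker.liftQL (Lm K n) le_rfl

theorem lift_mk (K : X →L[ℂ] X) (n : ℕ) (m : X × X) : lift K n (Submodule.Quotient.mk m) = Lm K n m := rfl

theorem lift_injective (K : X →L[ℂ] X) (n : ℕ) : Function.Injective (lift K n) := by
  rw [injective_iff_map_eq_zero]
  intro z hz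
  obtain ⟨m, rfl⟩ := Submodule.Quotient.mk_surjective _ z
  rw [Submodule.Quotient.mk_eq_zero]
  exact hz

theorem lift_surjective (K : X →L[ℂ] X) (n : ℕ) : Function.Surjective (lift K n) := by
  intro x
  exact ⟨Submodule.Quotient.mk (0, ((2 : ℂ) ^ n) • x), Lm_snd K n x⟩

variable [CompleteSpace X]

/-- `XN K n` is `X` with an equivalent norm -/
noncomputable def en (K : X →L[ℂ] X) (n : ℕ) : XN K n ≃L[ℂ] X :=
  ContinuousLinearEquiv.ofBijective (lift K n) (LinearMap.ker_eq_bot.2 (lift_injective K n))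
    (LinearMap.range_eq_top.2 (lift_surjective K n))

theorem en_mk (K : X →L[ℂ] X) (n : ℕ) (m : X × X) : en K n (Submodule.Quotient.mk m) = Lm K n m := rfl

/-- upper bound of the `n`-th norm -/
theorem norm_symm_le (K : X →L[ℂ] X) (n : ℕ) (m : X × X) : ‖(en K n).symm (Lm K n m)‖ ≤ ‖m‖ := by
  rw [← en_mk, (en K n).symm_apply_apply]
  exact Submodule.Quotient.norm_mk_le _ m

/-- almost optimal representations -/
theorem exists_rep (K : X →L[ℂ] X) (n : ℕ) (x : X) {ε : ℝ} (hε : 0 < ε) :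
    ∃ m : X × X, Lm K n m = x ∧ ‖m‖ < ‖(en K n).symm x‖ + ε := by
  obtain ⟨m, hm1, hm2⟩ := Submodule.Quotient.norm_mk_lt ((en K n).symm x) hε
  refine ⟨m, ?_, hm2⟩
  rw [← en_mk, hm1, (en K n).apply_symm_apply]

/-- operators which commute with `K` -/
theorem norm_symm_comm (K S : X →L[ℂ] X) (h : ∀ x, S (K x) = K (S x)) (n : ℕ) (x : X) :
    ‖(en K n).symm (S x)‖ ≤ ‖S‖ * ‖(en K n).symm x‖ := by
  have h1 : ∀ ε : ℝ, 0 < ε → ‖(en K n).symm (S x)‖ ≤ ‖S‖ * (‖(en K n).symm x‖ + ε) := by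
    intro ε hε
    obtain ⟨m, hm1, hm2⟩ := exists_rep K n x hε
    have h2 : Lm K n (S m.1, S m.2) = S x := by
      rw [← hm1, Lm_apply, Lm_apply, map_add, map_smul, map_smul, h]
    rw [← h2]
    refine (norm_symm_le K n _).trans ?_
    refine le_trans ?_ (mul_le_mul_of_nonneg_left hm2.le (norm_nonneg S))
    rw [Prod.norm_mk]
    refine max_le ?_ ?_
    · exact (S.le_opNorm _).trans (mul_le_mul_of_nonneg_left (norm_fst_le m) (norm_nonneg S))
    · exact (S.le_opNorm _).trans (mul_le_mul_of_nonneg_left (norm_snd_le m) (norm_nonneg S))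
  have h2 : Tendsto (fun ε : ℝ => ‖S‖ * (‖(en K n).symm x‖ + ε)) (𝓝[>] 0)
      (𝓝 (‖S‖ * (‖(en K n).symm x‖ + 0))) := by
    apply Tendsto.mono_left _ nhdsWithin_le_nhds
    have h3 : Continuous (fun ε : ℝ => ‖S‖ * (‖(en K n).symm x‖ + ε)) := by fun_prop
    exact h3.tendsto 0
  rw [add_zero] at h2
  refine ge_of_tendsto h2 ?_
  filter_upwards [self_mem_nhdsWithin] with ε hε
  exact h1 ε hε

/-- **The factorisation of Davis, Figiel, Johnson and Pełczyński**, with the operators which commute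
with the given one -/
theorem dfjp (K : X →L[ℂ] X) (hK : UWC K) :
    ∃ (R : Type) (_ : NormedAddCommGroup R) (_ : NormedSpace ℂ R) (_ : CompleteSpace R)
      (j : R →L[ℂ] X) (k : X →L[ℂ] R), Rx R ∧ Function.Injective j ∧ (∀ x, j (k x) = K x) ∧
      ∀ S : X →L[ℂ] X, (∀ x, S (K x) = K (S x)) →
        ∃ S' : R →L[ℂ] R, (∀ r, j (S' r) = S (j r)) ∧ ∀ r, ‖S' r‖ ≤ ‖S‖ * ‖r‖ := by
  have := fact12
  have hcomp : CompleteSpace (diag (en K)) := (diag_closed (en K)).completeSpace_coe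
  obtain ⟨k, hk⟩ := exists_into (en K) K (C := 2) (by norm_num) (by
    intro x G
    have h1 : ∀ n, ‖(en K n).symm (K x)‖ ^ 2 ≤ ‖x‖ ^ 2 * (1 / 2) ^ n := by
      intro n
      have h2 : K x = Lm K n (((2 : ℂ) ^ n)⁻¹ • x, 0) := by
        rw [Lm_apply]
        show _ = ((2 : ℂ) ^ n) • K (((2 : ℂ) ^ n)⁻¹ • x) + ((2 : ℂ) ^ n)⁻¹ • (0 : X)
        rw [smul_zero, add_zero, map_smul, smul_smul, mul_inv_cancel₀ (two_pow_ne n), one_smul]
      have h3 : ‖(en K n).symm (K x)‖ ≤ (1 / 2) ^ n * ‖x‖ := by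
        rw [h2]
        refine (norm_symm_le K n _).trans ?_
        rw [Prod.norm_mk, norm_zero, norm_smul, norm_inv, norm_pow, Complex.norm_ofNat]
        refine max_le ?_ (by positivity)
        rw [one_div, inv_pow]
      calc ‖(en K n).symm (K x)‖ ^ 2 ≤ ((1 / 2) ^ n * ‖x‖) ^ 2 :=
            pow_le_pow_left₀ (norm_nonneg _) h3 2
        _ = ‖x‖ ^ 2 * ((1 / 2) ^ n * (1 / 2) ^ n) := by ring
        _ ≤ ‖x‖ ^ 2 * ((1 / 2) ^ n * 1) := by
            refine mul_le_mul_of_nonneg_left ?_ (sq_nonneg _)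
            refine mul_le_mul_of_nonneg_left (pow_le_one₀ (by norm_num) (by norm_num)) (by positivity)
        _ = ‖x‖ ^ 2 * (1 / 2) ^ n := by ring
    refine (Finset.sum_le_sum fun n _ => h1 n).trans ?_
    rw [← Finset.mul_sum]
    have h4 : ∑ n ∈ G, (1 / 2 : ℝ) ^ n ≤ 2 := by
      have h5 := hasSum_geometric_two
      exact sum_le_hasSum G (fun n _ => by positivity) h5
    calc ‖x‖ ^ 2 * ∑ n ∈ G, (1 / 2 : ℝ) ^ n ≤ ‖x‖ ^ 2 * 2 := mul_le_mul_of_nonneg_left h4 (sq_nonneg _)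
      _ ≤ (2 * ‖x‖) ^ 2 := by nlinarith [sq_nonneg ‖x‖])
  refine ⟨diag (en K), inferInstance, inferInstance, hcomp, jm (en K), k, ?_, jm_injective _, hk, ?_⟩
  · apply rx_diag
    refine uwc_jm (en K) (fun n => ((2 : ℂ) ^ n) • K) ?_ (fun _ => 2) (fun n => 2 * (1 / 2) ^ n) (fun _ => by norm_num)
      ?_ (fun n => by positivity) ?_
    · intro n
      intro R 𝓤 hR
      obtain ⟨y, hy⟩ := hK R 𝓤 hR
      refine ⟨((2 : ℂ) ^ n) • y, fun f => ?_⟩
      rw [map_smul]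
      refine ((hy f).const_smul ((2 : ℂ) ^ n)).congr fun x => ?_
      show _ = f (((2 : ℂ) ^ n) • K x)
      rw [map_smul]
    · have h1 := (tendsto_pow_atTop_nhds_zero_of_lt_one (r := (1 / 2 : ℝ)) (by norm_num) (by norm_num)).const_mul 2
      rwa [mul_zero] at h1
    · intro n x
      by_cases hx : x = 0
      · refine ⟨0, 0, by rw [hx, map_zero, add_zero], ?_, ?_⟩ <;> · rw [norm_zero]; positivity
      have hpos : 0 < ‖(en K n).symm x‖ := by
        rw [norm_pos_iff]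
        intro h0
        exact hx (by rw [← (en K n).apply_symm_apply x, h0, map_zero])
      obtain ⟨m, hm1, hm2⟩ := exists_rep K n x hpos
      refine ⟨m.1, ((2 : ℂ) ^ n)⁻¹ • m.2, hm1.symm, ?_, ?_⟩
      · have := norm_fst_le m
        linarith
      · rw [norm_smul, norm_inv, norm_pow, Complex.norm_ofNat]
        have h1 : ‖m.2‖ ≤ 2 * ‖(en K n).symm x‖ := by
          have := norm_snd_le m
          linarith
        calc ((2 : ℝ) ^ n)⁻¹ * ‖m.2‖ ≤ ((2 : ℝ) ^ n)⁻¹ * (2 * ‖(en K n).symm x‖) :=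
              mul_le_mul_of_nonneg_left h1 (by positivity)
          _ = 2 * (1 / 2) ^ n * ‖(en K n).symm x‖ := by
              rw [one_div, inv_pow]; ring
  · intro S hS
    exact exists_op (en K) S (norm_nonneg S) (fun n x => norm_symm_comm K S hS n x)

end Pool.Agent.H272.WC
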