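import Pool.Agent.H272.WC.Interp
import Pool.Agent.H272.IS.Basic

/-!
# Reduction of operators with a weakly compact operator in their norm closed algebra to reflexive
spaces
-/

set_option autoImplicit false
open Filter Topology

namespace Pool.Agent.H272.WC

open Q99.RD Pool.Agent.H272.IS

section poly

variable {X : Type} [NormedAddCommGroup X] [NormedSpace ℂ X]

/-- the norm closed algebra generated by `T` and the identity -/
def polys (T : X →L[ℂ] X) : Set (X →L[ℂ] X) :=
  closure (Set.range fun p : Polynomial ℂ => Polynomial.aeval T p)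

theorem polys_comm {T K : X →L[ℂ] X} (hK : K ∈ polys T) : T * K = K * T := by
  have h1 : IsClosed {K : X →L[ℂ] X | T * K = K * T} :=
    isClosed_eq (continuous_const.mul continuous_id) (continuous_id.mul continuous_const)
  have h2 : polys T ⊆ {K : X →L[ℂ] X | T * K = K * T} := by
    refine closure_minimal ?_ h1
    rintro _ ⟨p, rfl⟩
    show T * Polynomial.aeval T p = Polynomial.aeval T p * T
    have h3 : Polynomial.aeval T (Polynomial.X * p) = Polynomial.aeval T (p * Polynomial.X) := by
      rw [mul_comm]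
    rwa [map_mul, map_mul, Polynomial.aeval_X] at h3
  exact h2 hK

theorem aeval_inv {T : X →L[ℂ] X} {M : Submodule ℂ X} (hM : ∀ x ∈ M, T x ∈ M) (p : Polynomial ℂ) :
    ∀ x ∈ M, Polynomial.aeval T p x ∈ M := by
  induction p using Polynomial.induction_on' with
  | add p q hp hq =>
    intro x hx
    rw [map_add]
    exact M.add_mem (hp x hx) (hq x hx)
  | monomial n a =>
    intro x hx
    rw [Polynomial.aeval_monomial]
    have h1 : ∀ n : ℕ, (T ^ n) x ∈ M := by
      intro n
      induction n with
      | zero => simpa using hx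
      | succ n ih =>
        rw [pow_succ']
        exact hM _ ih
    show (algebraMap ℂ (X →L[ℂ] X) a * T ^ n) x ∈ M
    rw [Algebra.algebraMap_eq_smul_one, smul_one_mul]
    exact M.smul_mem a (h1 n)

theorem polys_inv {T K : X →L[ℂ] X} (hK : K ∈ polys T) {M : Submodule ℂ X}
    (hMc : IsClosed (M : Set X)) (hM : ∀ x ∈ M, T x ∈ M) : ∀ x ∈ M, K x ∈ M := by
  intro x hx
  have h1 : IsClosed {K : X →L[ℂ] X | K x ∈ M} := by
    refine hMc.preimage ?_
    exact (ContinuousLinearMap.apply ℂ X x).continuous
  have h2 : polys T ⊆ {K : X →L[ℂ] X | K x ∈ M} := by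
    refine closure_minimal ?_ h1
    rintro _ ⟨p, rfl⟩
    exact aeval_inv hM p x hx
  exact h2 hK

theorem intertwine_aeval {Y : Type} [NormedAddCommGroup Y] [NormedSpace ℂ Y] {T : X →L[ℂ] X}
    {A : Y →L[ℂ] Y} {j : Y →L[ℂ] X} (h : ∀ r, j (A r) = T (j r)) (p : Polynomial ℂ) :
    ∀ r, j (Polynomial.aeval A p r) = Polynomial.aeval T p (j r) := by
  induction p using Polynomial.induction_on' with
  | add p q hp hq =>
    intro r
    rw [map_add, map_add]
    show j (Polynomial.aeval A p r + Polynomial.aeval A q r) = _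
    rw [map_add, hp, hq]
    rfl
  | monomial n a =>
    intro r
    rw [Polynomial.aeval_monomial, Polynomial.aeval_monomial, Algebra.algebraMap_eq_smul_one,
      Algebra.algebraMap_eq_smul_one, smul_one_mul, smul_one_mul]
    have h1 : ∀ n : ℕ, j ((A ^ n) r) = (T ^ n) (j r) := by
      intro n
      induction n with
      | zero => rfl
      | succ n ih =>
        rw [pow_succ', pow_succ']
        show j (A ((A ^ n) r)) = T ((T ^ n) (j r))
        rw [h, ih]
    show j (a • (A ^ n) r) = a • (T ^ n) (j r)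
    rw [map_smul, h1]

end poly

/-- `T` has no closed hyperinvariant subspace other than `0` and the whole space -/
def NoHyp {X : Type} [NormedAddCommGroup X] [NormedSpace ℂ X] (T : X →L[ℂ] X) : Prop :=
  ∀ V : Submodule ℂ X, IsClosed (V : Set X) →
    (∀ S : X →L[ℂ] X, S * T = T * S → ∀ x ∈ V, S x ∈ V) → V = ⊥ ∨ V = ⊤

/-- hyperinvariant subspaces and quasisimilarity -/
theorem noHyp_quasi {X R : Type} [NormedAddCommGroup X] [NormedSpace ℂ X]
    [NormedAddCommGroup R] [NormedSpace ℂ R] {T : X →L[ℂ] X} {A : R →L[ℂ] R} {j : R →L[ℂ] X}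
    {k : X →L[ℂ] R} (hj : ∀ r, j (A r) = T (j r)) (hk : ∀ x, A (k x) = k (T x))
    (hji : Function.Injective j) (hkd : DenseRange k) (h : NoHyp T) : NoHyp A := by
  intro V hV hinv
  let U : Submodule ℂ X :=
    { carrier := {x | ∀ C : X →L[ℂ] X, C * T = T * C → k (C x) ∈ V}
      add_mem' := by
        intro x y hx hy C hC
        rw [map_add, map_add]
        exact V.add_mem (hx C hC) (hy C hC)
      zero_mem' := by
        intro C _
        rw [map_zero, map_zero]
        exact V.zero_mem
      smul_mem' := by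
        intro c x hx C hC
        rw [map_smul, map_smul]
        exact V.smul_mem c (hx C hC) }
  have hUm : ∀ x, x ∈ U ↔ ∀ C : X →L[ℂ] X, C * T = T * C → k (C x) ∈ V := fun x => Iff.rfl
  have hUc : IsClosed (U : Set X) := by
    have : (U : Set X) = ⋂ (C : X →L[ℂ] X) (_ : C * T = T * C), {x | k (C x) ∈ V} := by
      ext x
      simp only [SetLike.mem_coe, hUm, Set.mem_iInter, Set.mem_ofPred_eq]
    rw [this]
    refine isClosed_iInter (fun C => isClosed_iInter (fun _ => ?_))
    exact hV.preimage (k.continuous.comp C.continuous)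
  rcases h U hUc (by
    intro S hS x hx
    rw [hUm] at hx ⊢
    intro C hC
    have h1 : (C * S) * T = T * (C * S) := by
      rw [mul_assoc, hS, ← mul_assoc, hC, mul_assoc]
    exact hx (C * S) h1) with h1 | h1
  · left
    rw [eq_bot_iff]
    intro v hv
    have h2 : j v ∈ U := by
      rw [hUm]
      intro C hC
      refine hinv (k.comp (C.comp j)) ?_ v hv
      ext r
      show k (C (j (A r))) = A (k (C (j r)))
      rw [hj, hk]
      have := congrArg (fun D : X →L[ℂ] X => k (D (j r))) hC
      exact this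
    rw [h1, Submodule.mem_bot] at h2
    rw [Submodule.mem_bot]
    exact hji (by rw [h2, map_zero])
  · right
    have h2 : Set.range k ⊆ (V : Set R) := by
      rintro _ ⟨x, rfl⟩
      have hx : x ∈ U := by rw [h1]; trivial
      exact (hUm x).1 hx 1 (by rw [one_mul, mul_one])
    rw [eq_top_iff]
    intro y _
    have := closure_mono h2
    rw [hV.closure_eq, hkd.closure_range] at this
    exact this (Set.mem_univ y)

/-- **The reduction to reflexive spaces.** -/
theorem reduce {X : Type} [NormedAddCommGroup X] [NormedSpace ℂ X] [CompleteSpace X]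
    (T K : X →L[ℂ] X) (hK : K ∈ polys T) (hw : UWC K) (hinj : Function.Injective K)
    (hd : DenseRange K) :
    ∃ (R : Type) (_ : NormedAddCommGroup R) (_ : NormedSpace ℂ R) (_ : CompleteSpace R)
      (A : R →L[ℂ] R) (j : R →L[ℂ] X) (k : X →L[ℂ] R), Rx R ∧
      Function.Injective j ∧ DenseRange j ∧ Function.Injective k ∧ DenseRange k ∧
      (∀ r, j (A r) = T (j r)) ∧ (∀ x, A (k x) = k (T x)) ∧ (∀ x, j (k x) = K x) ∧
      (∀ p : Polynomial ℂ, ‖Polynomial.aeval A p‖ ≤ ‖Polynomial.aeval T p‖) ∧
      (NoInv T ↔ NoInv A) ∧ (NoHyp T ↔ NoHyp A) := by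
  obtain ⟨R₀, i1, i2, i3, j₀, k₀, hR, hj₀, hjk, hS⟩ := dfjp K hw
  let W : Submodule ℂ R₀ := (LinearMap.range (k₀ : X →ₗ[ℂ] R₀)).topologicalClosure
  have hWc : IsClosed (W : Set R₀) := Submodule.isClosed_topologicalClosure _
  have hcW : CompleteSpace W := hWc.completeSpace_coe
  have hWr : (W : Set R₀) = closure (Set.range k₀) := by
    rw [Submodule.topologicalClosure_coe]
    rfl
  have hkW : ∀ x, k₀ x ∈ W := fun x => Submodule.le_topologicalClosure _ ⟨x, rfl⟩
  let j : W →L[ℂ] X := j₀.comp W.subtypeL
  let k : X →L[ℂ] W := k₀.codRestrict W hkW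
  have hj : Function.Injective j := fun a b h => Subtype.ext (hj₀ h)
  have hjk' : ∀ x, j (k x) = K x := hjk
  have hkd : DenseRange k := by
    intro w
    refine Metric.mem_closure_range_iff.2 fun ε hε => ?_
    have h1 : (w : R₀) ∈ closure (Set.range k₀) := by rw [← hWr]; exact w.2
    obtain ⟨x, hx⟩ := Metric.mem_closure_range_iff.1 h1 ε hε
    exact ⟨x, hx⟩
  have hki : Function.Injective k := by
    intro a b h
    apply hinj
    rw [← hjk', ← hjk', h]
  have hjd : DenseRange j := by
    intro x
    refine closure_mono ?_ (hd x)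
    rintro _ ⟨y, rfl⟩
    exact ⟨k y, hjk' y⟩
  -- operators which commute with `K`
  have hop : ∀ S : X →L[ℂ] X, (∀ x, S (K x) = K (S x)) →
      ∃ S' : W →L[ℂ] W, (∀ r, j (S' r) = S (j r)) ∧ ∀ r, ‖S' r‖ ≤ ‖S‖ * ‖r‖ := by
    intro S hSK
    obtain ⟨S', h1, h2⟩ := hS S hSK
    have h3 : ∀ x, S' (k₀ x) = k₀ (S x) := by
      intro x
      apply hj₀
      rw [h1, hjk, hjk, hSK]
    have h4 : ∀ w ∈ W, S' w ∈ W := by
      have h5 : Set.MapsTo S' (Set.range k₀) (Set.range k₀) := by
        rintro _ ⟨x, rfl⟩
        exact ⟨S x, (h3 x).symm⟩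
      have h6 := h5.closure S'.continuous
      intro w hw
      have hw' : w ∈ closure (Set.range k₀) := by rw [← hWr]; exact hw
      have := h6 hw'
      rw [← hWr] at this
      exact this
    refine ⟨(S'.comp W.subtypeL).codRestrict W (fun w => h4 w w.2), fun r => h1 r, fun r => h2 r⟩
  have hTK : ∀ x, T (K x) = K (T x) := fun x => congrArg (fun D : X →L[ℂ] X => D x) (polys_comm hK)
  obtain ⟨A, hA1, hA2⟩ := hop T hTK
  have hA3 : ∀ x, A (k x) = k (T x) := by
    intro x
    apply hj
    rw [hA1, hjk', hjk', hTK]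
  have hpK : ∀ p : Polynomial ℂ, ∀ x, Polynomial.aeval T p (K x) = K (Polynomial.aeval T p x) :=
    fun p x => (intertwine_aeval (j := K) (A := T) (T := T) (fun r => (hTK r).symm) p x).symm
  have hpA : ∀ p : Polynomial ℂ, ‖Polynomial.aeval A p‖ ≤ ‖Polynomial.aeval T p‖ := by
    intro p
    obtain ⟨S', h1, h2⟩ := hop (Polynomial.aeval T p) (hpK p)
    have h3 : Polynomial.aeval A p = S' := by
      ext1 r
      apply hj
      rw [h1]
      exact intertwine_aeval hA1 p r
    rw [h3]
    exact ContinuousLinearMap.opNorm_le_bound _ (norm_nonneg _) h2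
  have hkj : k.comp j ∈ polys A := by
    refine Metric.mem_closure_iff.2 ?_
    intro ε hε
    obtain ⟨_, ⟨p, rfl⟩, hp⟩ := Metric.mem_closure_iff.1 hK ε hε
    refine ⟨Polynomial.aeval A p, ⟨p, rfl⟩, ?_⟩
    rw [dist_eq_norm] at hp ⊢
    obtain ⟨S', h1, h2⟩ := hop (K - Polynomial.aeval T p) (by
      intro x
      show K (K x) - Polynomial.aeval T p (K x) = K (K x - Polynomial.aeval T p x)
      rw [hpK, map_sub])
    have h3 : k.comp j - Polynomial.aeval A p = S' := by
      ext1 r
      apply hj
      rw [h1]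
      show j (k (j r) - Polynomial.aeval A p r) = K (j r) - Polynomial.aeval T p (j r)
      rw [map_sub, hjk', intertwine_aeval hA1 p r]
    rw [h3]
    exact (ContinuousLinearMap.opNorm_le_bound _ (norm_nonneg _) h2).trans_lt hp
  refine ⟨W, inferInstance, inferInstance, hcW, A, j, k, hR.sub W hWc, hj, hjd, hki, hkd, hA1, hA3, hjk', hpA,
    ⟨fun h => ?_, fun h => ?_⟩, ⟨fun h => ?_, fun h => ?_⟩⟩
  · intro V hV hinv
    rcases h (V.comap (k : X →ₗ[ℂ] W)) (hV.preimage k.continuous) (by
      intro x hx
      show k (T x) ∈ V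
      rw [← hA3]
      exact hinv _ hx) with h1 | h1
    · left
      rw [eq_bot_iff]
      intro v hv
      have h2 : k (j v) ∈ V := polys_inv hkj hV hinv v hv
      have h3 : j v ∈ V.comap (k : X →ₗ[ℂ] W) := h2
      rw [h1, Submodule.mem_bot] at h3
      rw [Submodule.mem_bot]
      exact hj (by rw [h3, map_zero])
    · right
      rw [eq_top_iff]
      intro y _
      have h2 : Set.range k ⊆ (V : Set W) := by
        rintro _ ⟨x, rfl⟩
        have hx : x ∈ V.comap (k : X →ₗ[ℂ] W) := by rw [h1]; trivial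
        exact hx
      have := closure_mono h2
      rw [hV.closure_eq, hkd.closure_range] at this
      exact this (Set.mem_univ y)
  · intro V hV hinv
    rcases h (V.comap (j : W →ₗ[ℂ] X)) (hV.preimage j.continuous) (by
      intro x hx
      show j (A x) ∈ V
      rw [hA1]
      exact hinv _ hx) with h1 | h1
    · left
      rw [eq_bot_iff]
      intro v hv
      have h2 : K v ∈ V := polys_inv hK hV hinv v hv
      have h3 : k v ∈ V.comap (j : W →ₗ[ℂ] X) := by
        show j (k v) ∈ V
        rw [hjk']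
        exact h2
      rw [h1, Submodule.mem_bot] at h3
      rw [Submodule.mem_bot]
      exact hki (by rw [h3, map_zero])
    · right
      rw [eq_top_iff]
      intro y _
      have h2 : Set.range j ⊆ (V : Set X) := by
        rintro _ ⟨x, rfl⟩
        have hx : x ∈ V.comap (j : W →ₗ[ℂ] X) := by rw [h1]; trivial
        exact hx
      have := closure_mono h2
      rw [hV.closure_eq, hjd.closure_range] at this
      exact this (Set.mem_univ y)
  · exact noHyp_quasi hA1 hA3 hj hkd h
  · exact noHyp_quasi (T := A) (A := T) (j := k) (k := j) (fun r => (hA3 r).symm)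
      (fun x => (hA1 x).symm) hki hjd h

end Pool.Agent.H272.WC
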