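import Pool.Agent.H272.WC.Refl

/-!
# Functionals on `l_2`-sums
-/

set_option autoImplicit false
open Filter Topology
open scoped ENNReal NNReal

namespace Pool.Agent.H272.WC

/-- rotating a vector so that the value of a functional becomes its absolute value -/
theorem exists_rot {E : Type} [NormedAddCommGroup E] [NormedSpace ℂ E] (φ : StrongDual ℂ E) (h : E) :
    ∃ c : ℂ, ‖c‖ = 1 ∧ φ (c • h) = (‖φ h‖ : ℂ) := by
  by_cases hz : φ h = 0
  · exact ⟨1, norm_one, by rw [hz, norm_zero, one_smul, hz, Complex.ofReal_zero]⟩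
  · refine ⟨(‖φ h‖ : ℂ) / φ h, ?_, ?_⟩
    · rw [norm_div, Complex.norm_real, norm_norm, div_self (norm_ne_zero_iff.2 hz)]
    · rw [map_smul, smul_eq_mul, div_mul_cancel₀ _ hz]

variable {E : ℕ → Type} [∀ n, NormedAddCommGroup (E n)] [∀ n, NormedSpace ℂ (E n)]

theorem fact12 : Fact ((1 : ℝ≥0∞) ≤ 2) := ⟨by norm_num⟩

/-- the embedding of a summand -/
noncomputable def sgl (n : ℕ) : E n →L[ℂ] lp E 2 :=
  lp.singleContinuousLinearMap ℂ E 2 n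

theorem sgl_apply (n : ℕ) (p : E n) : sgl n p = lp.single 2 n p := rfl

theorem sum_sq_le (z : lp E 2) (G : Finset ℕ) : ∑ n ∈ G, ‖z n‖ ^ 2 ≤ ‖z‖ ^ 2 := by
  have h := lp.sum_rpow_le_norm_rpow (p := 2) (by norm_num) z G
  simpa using h

theorem norm_sum_sgl (p : ∀ n, E n) (G : Finset ℕ) : ‖∑ n ∈ G, sgl n (p n)‖ ^ 2 = ∑ n ∈ G, ‖p n‖ ^ 2 := by
  have h := lp.norm_sum_single (E := E) (p := 2) (by norm_num) p G
  have h2 : ‖∑ i ∈ G, lp.single (E := E) 2 i (p i)‖ ^ 2 = ∑ n ∈ G, ‖p n‖ ^ 2 := by simpa using h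
  exact h2

theorem hasSum_sgl (z : lp E 2) : HasSum (fun n => sgl n (z n)) z :=
  lp.hasSum_single (by norm_num) z

theorem le_of_sq_le_sq' {a b : ℝ} (h : a ^ 2 ≤ b ^ 2) (hb : 0 ≤ b) : a ≤ b := by
  by_contra hc
  push Not at hc
  nlinarith

/-- the tails of a functional are small -/
theorem functional_tail (φ : StrongDual ℂ (lp E 2)) {ε : ℝ} (hε : 0 < ε) :
    ∃ F : Finset ℕ, ∀ z : lp E 2, ‖φ z - ∑ n ∈ F, φ (sgl n (z n))‖ ≤ ε * ‖z‖ := by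
  classical
  obtain ⟨b, hb⟩ : ∃ b : ℕ → ℝ, b = fun n => ‖φ.comp (sgl n)‖ := ⟨_, rfl⟩
  have hb0 : ∀ n, 0 ≤ b n := fun n => by rw [hb]; exact norm_nonneg _
  have hbp : ∀ n (p : E n), ‖φ (sgl n p)‖ ≤ b n * ‖p‖ := fun n p => by
    rw [hb]
    exact (φ.comp (sgl n)).le_opNorm p
  -- almost norming vectors
  have h1 : ∀ n, ∃ u : E n, ‖u‖ ≤ 1 ∧ b n / 2 ≤ ‖φ (sgl n u)‖ := by
    intro n
    by_cases h0 : b n = 0
    · exact ⟨0, by rw [norm_zero]; exact zero_le_one, by rw [h0]; simp⟩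
    · have h2 : b n / 2 < ‖φ.comp (sgl (E := E) n)‖ := by
        have h3 : b n / 2 < b n := half_lt_self (lt_of_le_of_ne (hb0 n) (Ne.symm h0))
        rw [hb] at h3 ⊢
        exact h3
      obtain ⟨u, hu1, hu2⟩ := (φ.comp (sgl (E := E) n)).exists_lt_apply_of_lt_opNorm h2
      exact ⟨u, hu1.le, hu2.le⟩
  choose u hu1 hu2 using h1
  have h2 : ∀ n, ∃ c : ℂ, ‖c‖ = 1 ∧ φ (sgl n (c • u n)) = (‖φ (sgl n (u n))‖ : ℂ) := by
    intro n
    obtain ⟨c, hc1, hc2⟩ := exists_rot (φ.comp (sgl n)) (u n)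
    exact ⟨c, hc1, hc2⟩
  choose c hc1 hc2 using h2
  have hsum : ∀ G : Finset ℕ, ∑ n ∈ G, b n ^ 2 ≤ (2 * ‖φ‖) ^ 2 := by
    intro G
    obtain ⟨s, hs⟩ : ∃ s : ℝ, s = ∑ n ∈ G, b n ^ 2 := ⟨_, rfl⟩
    have hs0 : 0 ≤ s := by
      rw [hs]
      exact Finset.sum_nonneg fun n _ => sq_nonneg _
    obtain ⟨w, hw⟩ : ∃ w : lp E 2, w = ∑ n ∈ G, sgl n ((b n : ℂ) • (c n • u n)) := ⟨_, rfl⟩
    have hwn : ‖w‖ ^ 2 ≤ s := by
      rw [hw, norm_sum_sgl (fun n => (b n : ℂ) • (c n • u n)), hs]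
      apply Finset.sum_le_sum
      intro n _
      rw [norm_smul, norm_smul, hc1, one_mul, Complex.norm_real, Real.norm_of_nonneg (hb0 n), mul_pow]
      have : ‖u n‖ ^ 2 ≤ 1 := by
        have := hu1 n
        nlinarith [norm_nonneg (u n)]
      nlinarith [sq_nonneg (b n)]
    have hφw : φ w = ((∑ n ∈ G, b n * ‖φ (sgl n (u n))‖ : ℝ) : ℂ) := by
      rw [hw, map_sum, Complex.ofReal_sum]
      apply Finset.sum_congr rfl
      intro n _
      rw [map_smul, map_smul, hc2, smul_eq_mul, Complex.ofReal_mul]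
    have h3 := φ.le_opNorm w
    rw [hφw, Complex.norm_real, Real.norm_of_nonneg (Finset.sum_nonneg fun n _ =>
      mul_nonneg (hb0 n) (norm_nonneg _))] at h3
    have h4 : s / 2 ≤ ‖φ‖ * ‖w‖ := by
      refine le_trans ?_ h3
      rw [hs, Finset.sum_div]
      apply Finset.sum_le_sum
      intro n _
      have := mul_le_mul_of_nonneg_left (hu2 n) (hb0 n)
      nlinarith
    have h5 : (s / 2) ^ 2 ≤ ‖φ‖ ^ 2 * s := by
      calc (s / 2) ^ 2 ≤ (‖φ‖ * ‖w‖) ^ 2 := pow_le_pow_left₀ (by linarith) h4 2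
        _ = ‖φ‖ ^ 2 * ‖w‖ ^ 2 := by ring
        _ ≤ ‖φ‖ ^ 2 * s := mul_le_mul_of_nonneg_left hwn (sq_nonneg _)
    rw [← hs]
    rcases hs0.eq_or_lt with h6 | h6
    · rw [← h6]
      positivity
    · nlinarith
  have hsm : Summable (fun n => b n ^ 2) := summable_of_sum_le (fun n => sq_nonneg _) hsum
  obtain ⟨F, hF⟩ := summable_iff_vanishing_norm.1 hsm (ε ^ 2) (by positivity)
  refine ⟨F, fun z => ?_⟩
  have h3 : HasSum (fun n => φ (sgl n (z n))) (φ z) := φ.hasSum (hasSum_sgl z)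
  have h4 : Tendsto (fun G : Finset ℕ => ‖∑ n ∈ G, φ (sgl n (z n)) - ∑ n ∈ F, φ (sgl n (z n))‖) atTop
      (𝓝 ‖φ z - ∑ n ∈ F, φ (sgl n (z n))‖) := (Filter.Tendsto.sub_const h3 _).norm
  refine le_of_tendsto h4 ?_
  filter_upwards [eventually_ge_atTop F] with G hG
  rw [← Finset.sum_sdiff hG, add_sub_cancel_right]
  have h5 := hF (G \ F) Finset.sdiff_disjoint
  rw [Real.norm_eq_abs, abs_of_nonneg (Finset.sum_nonneg fun n _ => sq_nonneg _)] at h5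
  have h6 : ‖∑ n ∈ G \ F, φ (sgl n (z n))‖ ≤ ∑ n ∈ G \ F, b n * ‖z n‖ :=
    (norm_sum_le _ _).trans (Finset.sum_le_sum fun n _ => hbp n _)
  refine h6.trans ?_
  have h7 := Finset.sum_mul_sq_le_sq_mul_sq (G \ F) b (fun n => ‖z n‖)
  have h8 : (∑ n ∈ G \ F, b n * ‖z n‖) ^ 2 ≤ (ε * ‖z‖) ^ 2 := by
    refine h7.trans ?_
    rw [mul_pow]
    exact mul_le_mul h5.le (sum_sq_le z _) (Finset.sum_nonneg fun n _ => sq_nonneg _) (sq_nonneg _)
  exact le_of_sq_le_sq' h8 (by positivity)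

end Pool.Agent.H272.WC
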